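import Mathlib

open Polynomial IntermediateField

namespace Pool.Agent.Lib.MP_b164a8_nt

/-- Binet-type identity for any sequence satisfying the Fibonacci recurrence at `w - w⁻¹`. -/
theorem binet (F : ℕ → ℂ) (w : ℂ) (hw : w ≠ 0) (h0 : F 0 = 0) (h1 : F 1 = 1)
    (hr : ∀ n, F (n + 2) = (w - w⁻¹) * F (n + 1) + F n) (n : ℕ) :
    F n * (w + w⁻¹) = w ^ n - (-w⁻¹) ^ n := by
  have key : ∀ n, F n * (w + w⁻¹) = w ^ n - (-w⁻¹) ^ n ∧
      F (n + 1) * (w + w⁻¹) = w ^ (n + 1) - (-w⁻¹) ^ (n + 1) := by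
    intro n
    induction n with
    | zero => simp [h0, h1]
    | succ n ih =>
      refine ⟨ih.2, ?_⟩
      have hww : w * w⁻¹ = 1 := mul_inv_cancel₀ hw
      rw [hr, add_mul, mul_assoc, ih.1, ih.2]
      linear_combination (-(w ^ n) + (-w⁻¹) ^ n) * hww
  exact (key n).1

theorem binet_deg (F : ℕ → ℂ) (w : ℂ) (hw2 : w * w = -1) (h0 : F 0 = 0) (h1 : F 1 = 1)
    (hr : ∀ n, F (n + 2) = (w - w⁻¹) * F (n + 1) + F n) (n : ℕ) :
    F n * w = n * w ^ n := by
  have hinv : w⁻¹ = -w := by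
    apply inv_eq_of_mul_eq_one_right
    linear_combination -hw2
  have key : ∀ n, F n * w = n * w ^ n ∧ F (n + 1) * w = ((n + 1 : ℕ) : ℂ) * w ^ (n + 1) := by
    intro n
    induction n with
    | zero => simp [h0, h1]
    | succ n ih =>
      refine ⟨ih.2, ?_⟩
      rw [hr, add_mul, mul_assoc, ih.1, ih.2, hinv]
      push_cast
      linear_combination ((n : ℂ) * w ^ n) * hw2
  exact (key n).1

/-- integral elements of `ℚ(w)` lie in `ℤ[w]` for a complex root of unity `w`. -/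
theorem mem_adjoin_int_of_primitiveRoot {M : ℕ} [NeZero M] {w : ℂ} (hw : IsPrimitiveRoot w M)
    {x : ℂ} (hx : x ∈ Algebra.adjoin ℚ {w}) (hi : IsIntegral ℤ x) :
    x ∈ Algebra.adjoin ℤ {w} := by
  have halg : IsAlgebraic ℚ w := ((hw.isIntegral (NeZero.pos M)).tower_top (A := ℚ)).isAlgebraic
  have hcyc : IsCyclotomicExtension {M} ℚ ℚ⟮w⟯ := by
    change IsCyclotomicExtension {M} ℚ (IntermediateField.adjoin ℚ {w}).toSubalgebra
    rw [IntermediateField.adjoin_simple_toSubalgebra_of_isAlgebraic halg]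
    exact hw.adjoin_isCyclotomicExtension ℚ
  have hx' : x ∈ ℚ⟮w⟯ := by
    rw [← IntermediateField.mem_toSubalgebra,
      IntermediateField.adjoin_simple_toSubalgebra_of_isAlgebraic halg]
    exact hx
  have hw' : IsPrimitiveRoot (AdjoinSimple.gen ℚ w) M := by
    rw [← IsPrimitiveRoot.coe_submonoidClass_iff]
    exact hw
  have hcl := IsCyclotomicExtension.Rat.isIntegralClosure_adjoin_singleton hw'
  have hi' : IsIntegral ℤ (⟨x, hx'⟩ : ℚ⟮w⟯) := by
    rw [← isIntegral_algHom_iff ((ℚ⟮w⟯.val).restrictScalars ℤ) Subtype.val_injective]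
    exact hi
  obtain ⟨y, hy⟩ := hcl.isIntegral_iff.mp hi'
  have hmem : (⟨x, hx'⟩ : ℚ⟮w⟯) ∈ Algebra.adjoin ℤ {AdjoinSimple.gen ℚ w} := by
    rw [← hy]; exact y.2
  have := Subalgebra.mem_map.mpr ⟨_, hmem, (rfl : ((ℚ⟮w⟯.val).restrictScalars ℤ) _ = _)⟩
  rw [AlgHom.map_adjoin_singleton] at this
  exact this

theorem decomp {w : ℂ} (hw : w ≠ 0) {x : ℂ} (hx : x ∈ Algebra.adjoin ℤ {w}) :
    ∃ a ∈ Algebra.adjoin ℤ {w - w⁻¹}, ∃ b ∈ Algebra.adjoin ℤ {w - w⁻¹}, x = a + b * w := by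
  have hww : w * w⁻¹ = 1 := mul_inv_cancel₀ hw
  induction hx using Algebra.adjoin_induction with
  | mem x hx =>
    rw [Set.mem_singleton_iff] at hx
    exact ⟨0, zero_mem _, 1, one_mem _, by simp [hx]⟩
  | algebraMap r => exact ⟨_, Subalgebra.algebraMap_mem _ r, 0, zero_mem _, by simp⟩
  | add x y _ _ hx hy =>
    obtain ⟨a, ha, b, hb, rfl⟩ := hx
    obtain ⟨c, hc, d, hd, rfl⟩ := hy
    exact ⟨a + c, add_mem ha hc, b + d, add_mem hb hd, by ring⟩
  | mul x y _ _ hx hy =>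
    obtain ⟨a, ha, b, hb, rfl⟩ := hx
    obtain ⟨c, hc, d, hd, rfl⟩ := hy
    have ht : w - w⁻¹ ∈ Algebra.adjoin ℤ {w - w⁻¹} := Algebra.self_mem_adjoin_singleton ℤ _
    refine ⟨a * c + b * d, add_mem (mul_mem ha hc) (mul_mem hb hd),
      a * d + b * c + b * d * (w - w⁻¹),
      add_mem (add_mem (mul_mem ha hd) (mul_mem hb hc)) (mul_mem (mul_mem hb hd) ht), ?_⟩
    linear_combination (b * d) * hww

/-- the good case: `4 ∣ M`, `w ^ 2 ≠ -1`. -/
theorem good {M : ℕ} (hM : 0 < M) (h4 : 4 ∣ M) {w : ℂ} (hw : IsPrimitiveRoot w M)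
    (hw2 : w * w ≠ -1) {x : ℂ} (hx : x ∈ Algebra.adjoin ℚ {w - w⁻¹}) (hi : IsIntegral ℤ x) :
    x ∈ Algebra.adjoin ℤ {w - w⁻¹} := by
  have : NeZero M := ⟨hM.ne'⟩
  have hw0 : w ≠ 0 := hw.ne_zero hM.ne'
  have hww : w * w⁻¹ = 1 := mul_inv_cancel₀ hw0
  obtain ⟨m, rfl⟩ := h4
  have hm : 0 < m := by omega
  have hinv : w⁻¹ = w ^ (4 * m - 1) := by
    apply inv_eq_of_mul_eq_one_right
    rw [← pow_succ', show 4 * m - 1 + 1 = 4 * m by omega, hw.pow_eq_one]
  have hhalf : w ^ (2 * m) = -1 := by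
    have h2 : IsPrimitiveRoot (w ^ (2 * m)) 2 := hw.pow hM (by ring)
    exact h2.eq_neg_one_of_two_right
  set w' : ℂ := w ^ (2 * m - 1) with hw'def
  have hw'eq : w' = -w⁻¹ := by
    have : w * w' = -1 := by
      rw [hw'def, ← pow_succ', show 2 * m - 1 + 1 = 2 * m by omega, hhalf]
    calc w' = w⁻¹ * (w * w') := by rw [← mul_assoc, inv_mul_cancel₀ hw0, one_mul]
      _ = -w⁻¹ := by rw [this]; ring
  have hcop : (2 * m - 1).Coprime (4 * m) := by
    obtain ⟨k, rfl⟩ : ∃ k, m = k + 1 := ⟨m - 1, by omega⟩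
    rw [show 2 * (k + 1) - 1 = 2 * k + 1 by omega, show 4 * (k + 1) = 2 * (2 * k + 1) + 2 by ring]
    rw [Nat.coprime_mul_right_add_right]
    exact Nat.coprime_two_right.mpr ⟨k, rfl⟩
  have hw' : IsPrimitiveRoot w' (4 * m) := hw.pow_of_coprime _ hcop
  have hsub : Algebra.adjoin ℚ {w - w⁻¹} ≤ Algebra.adjoin ℚ {w} := by
    rw [Algebra.adjoin_le_iff, Set.singleton_subset_iff, hinv]
    exact sub_mem (Algebra.self_mem_adjoin_singleton ℚ w)
      (pow_mem (Algebra.self_mem_adjoin_singleton ℚ w) _)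
  have hxw := mem_adjoin_int_of_primitiveRoot hw (hsub hx) hi
  obtain ⟨a, ha, b, hb, hab⟩ := decomp hw0 hxw
  rw [Algebra.adjoin_singleton_eq_range_aeval] at hx
  obtain ⟨C, hC⟩ := hx
  have ha' := ha
  have hb' := hb
  rw [Algebra.adjoin_singleton_eq_range_aeval] at ha' hb'
  obtain ⟨A, hA⟩ := ha'
  obtain ⟨B, hB⟩ := hb'
  set T : ℚ[X] := X - X ^ (4 * m - 1) with hT
  have hTw : aeval w T = w - w⁻¹ := by simp [hT, hinv]
  have hw'0 : w' ≠ 0 := hw'.ne_zero hM.ne'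
  have hinv' : w'⁻¹ = w' ^ (4 * m - 1) := by
    apply inv_eq_of_mul_eq_one_right
    rw [← pow_succ', show 4 * m - 1 + 1 = 4 * m by omega, hw'.pow_eq_one]
  have hTw' : aeval w' T = w - w⁻¹ := by
    have : aeval w' T = w' - w'⁻¹ := by simp [hT, hinv']
    rw [this, hw'eq, inv_neg, inv_inv]; ring
  set P : ℚ[X] := (A.map (Int.castRingHom ℚ)).comp T + (B.map (Int.castRingHom ℚ)).comp T * X
    - C.comp T with hP
  have hA' : aeval (w - w⁻¹) (A.map (Int.castRingHom ℚ)) = a := by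
    rw [← hA, ← algebraMap_int_eq, aeval_map_algebraMap]; rfl
  have hB' : aeval (w - w⁻¹) (B.map (Int.castRingHom ℚ)) = b := by
    rw [← hB, ← algebraMap_int_eq, aeval_map_algebraMap]; rfl
  have hC' : aeval (w - w⁻¹) C = x := hC
  have hPw : aeval w P = 0 := by
    simp only [hP, map_sub, map_add, map_mul, aeval_comp, hTw, hA', hB', hC', aeval_X]
    rw [hab]; ring
  have hdvd : minpoly ℚ w ∣ P := minpoly.dvd ℚ w hPw
  have hmin : minpoly ℚ w = minpoly ℚ w' := by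
    rw [← cyclotomic_eq_minpoly_rat hw hM, ← cyclotomic_eq_minpoly_rat hw' hM]
  have hPw' : aeval w' P = 0 := by
    rw [hmin] at hdvd
    exact aeval_eq_zero_of_dvd_aeval_eq_zero hdvd (minpoly.aeval ℚ w')
  simp only [hP, map_sub, map_add, map_mul, aeval_comp, hTw', hA', hB', hC', aeval_X] at hPw'
  have hb0 : b * (w + w⁻¹) = 0 := by
    rw [hw'eq] at hPw'
    linear_combination -hPw' - hab
  rcases mul_eq_zero.mp hb0 with h | h
  · rw [hab, h]; simpa using ha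
  · exfalso
    apply hw2
    linear_combination w * h - hww

theorem zero_case {x : ℂ} (hx : x ∈ Algebra.adjoin ℚ {(0 : ℂ)}) (hi : IsIntegral ℤ x) :
    x ∈ Algebra.adjoin ℤ {(0 : ℂ)} := by
  rw [Algebra.adjoin_singleton_eq_range_aeval] at hx
  obtain ⟨C, hC⟩ := hx
  have hC' : aeval (0 : ℂ) C = x := hC
  have hq : x = algebraMap ℚ ℂ (C.coeff 0) := by
    rw [← hC', aeval_def, eval₂_at_zero]
  rw [hq] at hi ⊢
  rw [isIntegral_algebraMap_iff (algebraMap ℚ ℂ).injective] at hi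
  obtain ⟨z, hz⟩ := IsIntegrallyClosed.isIntegral_iff.mp hi
  rw [← hz, ← IsScalarTower.algebraMap_apply]
  exact Subalgebra.algebraMap_mem _ z

/-- the bad case: odd order. -/
theorem bad {p : ℕ} (hp : 2 < p) (hodd : Odd p) {z : ℂ} (hz : IsPrimitiveRoot z p) :
    z ∈ Algebra.adjoin ℚ {z - z⁻¹} ∧ IsIntegral ℤ z ∧ z ∉ Algebra.adjoin ℤ {z - z⁻¹} := by
  have hp0 : 0 < p := by omega
  have hz0 : z ≠ 0 := hz.ne_zero hp0.ne'
  have hzz : z * z⁻¹ = 1 := mul_inv_cancel₀ hz0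
  have ht : z - z⁻¹ ∈ Algebra.adjoin ℚ {z - z⁻¹} := Algebra.self_mem_adjoin_singleton ℚ _
  refine ⟨?_, hz.isIntegral hp0, ?_⟩
  · set u := z * z with hu
    have hu0 : u ≠ 0 := mul_ne_zero hz0 hz0
    have huu : u * u⁻¹ = 1 := mul_inv_cancel₀ hu0
    have h1 : u + u⁻¹ ∈ Algebra.adjoin ℚ {z - z⁻¹} := by
      have : u + u⁻¹ = (z - z⁻¹) * (z - z⁻¹) + 1 + 1 := by
        rw [hu, mul_inv]; linear_combination 2 * hzz
      rw [this]
      exact add_mem (add_mem (mul_mem ht ht) (one_mem _)) (one_mem _)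
    have key : ∀ m : ℕ, u ^ m + u⁻¹ ^ m ∈ Algebra.adjoin ℚ {z - z⁻¹} ∧
        u ^ (m + 1) + u⁻¹ ^ (m + 1) ∈ Algebra.adjoin ℚ {z - z⁻¹} := by
      intro m
      induction m with
      | zero =>
        refine ⟨?_, by simpa using h1⟩
        simpa using add_mem (one_mem (Algebra.adjoin ℚ {z - z⁻¹})) (one_mem _)
      | succ m ih =>
        refine ⟨ih.2, ?_⟩
        have : u ^ (m + 1 + 1) + u⁻¹ ^ (m + 1 + 1) =
            (u + u⁻¹) * (u ^ (m + 1) + u⁻¹ ^ (m + 1)) - (u ^ m + u⁻¹ ^ m) := by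
          linear_combination (-(u ^ m) - u⁻¹ ^ m) * huu
        rw [this]
        exact sub_mem (mul_mem h1 ih.2) ih.1
    obtain ⟨k, hk⟩ := hodd
    have huk : u ^ (k + 1) = z := by
      rw [hu, ← pow_two, ← pow_mul, show 2 * (k + 1) = p + 1 by omega, pow_succ, hz.pow_eq_one,
        one_mul]
    have h2 := (key k).2
    rw [inv_pow, huk] at h2
    have : z = (1 / 2 : ℚ) • ((z - z⁻¹) + (z + z⁻¹)) := by
      rw [Algebra.smul_def]; simp; ring
    rw [this]
    nth_rewrite 1 [← this]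
    nth_rewrite 1 [← this]
    exact Subalgebra.smul_mem _ (add_mem ht h2) _
  · intro hmem
    have hconj : (starRingEnd ℂ) z = z⁻¹ := by
      have hn : ‖z‖ = 1 := hz.norm'_eq_one hp0.ne'
      rw [Complex.inv_def, Complex.normSq_eq_norm_sq, hn]; simp
    have hconjt : (starRingEnd ℂ) (z - z⁻¹) = -(z - z⁻¹) := by
      rw [map_sub, map_inv₀, hconj, inv_inv]; ring
    have key : ∀ y ∈ Algebra.adjoin ℤ {z - z⁻¹}, ∃ b ∈ Algebra.adjoin ℤ {z - z⁻¹},
        (starRingEnd ℂ) y = y - 2 * (z - z⁻¹) * b := by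
      intro y hy
      have ht' : z - z⁻¹ ∈ Algebra.adjoin ℤ {z - z⁻¹} := Algebra.self_mem_adjoin_singleton ℤ _
      induction hy using Algebra.adjoin_induction with
      | mem x hx =>
        rw [Set.mem_singleton_iff] at hx
        refine ⟨1, one_mem _, ?_⟩
        rw [hx, hconjt]; ring
      | algebraMap r => exact ⟨0, zero_mem _, by simp⟩
      | add x y _ _ hx hy =>
        obtain ⟨a, ha, hx⟩ := hx
        obtain ⟨b, hb, hy⟩ := hy
        exact ⟨a + b, add_mem ha hb, by rw [map_add, hx, hy]; ring⟩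
      | mul x y hx' hy' hx hy =>
        obtain ⟨a, ha, hx⟩ := hx
        obtain ⟨b, hb, hy⟩ := hy
        refine ⟨x * b + a * y - ((z - z⁻¹) + (z - z⁻¹)) * a * b,
          sub_mem (add_mem (mul_mem hx' hb) (mul_mem ha hy'))
            (mul_mem (mul_mem (add_mem ht' ht') ha) hb), ?_⟩
        rw [map_mul, hx, hy]; ring
    obtain ⟨b, hb, hzb⟩ := key z hmem
    rw [hconj] at hzb
    have ht0 : z - z⁻¹ ≠ 0 := by
      intro h
      have h2 : z ^ 2 = 1 := by linear_combination z * h + hzz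
      have := Nat.le_of_dvd (by norm_num) (hz.dvd_of_pow_eq_one 2 h2)
      omega
    have hb2 : 2 * b = 1 := by
      apply mul_left_cancel₀ ht0
      linear_combination hzb
    have hzi : IsIntegral ℤ z⁻¹ := (hz.inv).isIntegral hp0
    have hbi : IsIntegral ℤ b :=
      IsIntegral.of_mem_of_fg _ ((hz.isIntegral hp0).sub hzi).fg_adjoin_singleton _ hb
    have hbq : b = algebraMap ℚ ℂ (1 / 2) := by
      simp; linear_combination (1 / 2) * hb2
    rw [hbq, isIntegral_algebraMap_iff (algebraMap ℚ ℂ).injective] at hbi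
    obtain ⟨k, hk⟩ := IsIntegrallyClosed.isIntegral_iff.mp hbi
    have hk' : (k : ℚ) = 1 / 2 := hk
    have : (2 * k : ℤ) = 1 := by
      have : ((2 * k : ℤ) : ℚ) = 1 := by push_cast; rw [hk']; norm_num
      exact_mod_cast this
    omega

/-- transfer between the abstract field `ℚ[X]/(g)` and a complex root. -/
theorem bridge {f : ℤ[X]} (hirr : Irreducible (f.map (Int.castRingHom ℚ))) {t : ℂ}
    (ht : aeval t f = 0) :
    Algebra.adjoin ℤ {AdjoinRoot.root (f.map (Int.castRingHom ℚ))} =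
        integralClosure ℤ (AdjoinRoot (f.map (Int.castRingHom ℚ))) ↔
      (IsIntegral ℤ t ∧
        ∀ x ∈ Algebra.adjoin ℚ {t}, IsIntegral ℤ x → x ∈ Algebra.adjoin ℤ {t}) := by
  set g := f.map (Int.castRingHom ℚ) with hg
  have : Fact (Irreducible g) := ⟨hirr⟩
  have htg : g.eval₂ (Algebra.ofId ℚ ℂ) t = 0 := by
    have : aeval t g = 0 := by
      rw [hg, ← algebraMap_int_eq, aeval_map_algebraMap]; exact ht
    exact this
  let φ : AdjoinRoot g →ₐ[ℚ] ℂ := AdjoinRoot.liftAlgHom g (Algebra.ofId ℚ ℂ) t htg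
  have hφr : φ (AdjoinRoot.root g) = t := AdjoinRoot.liftAlgHom_root _ _ _ _
  have hinj : Function.Injective φ := φ.toRingHom.injective
  let ψ : AdjoinRoot g →ₐ[ℤ] ℂ := φ.restrictScalars ℤ
  have hψinj : Function.Injective ψ := hinj
  have hrange : ∀ x, x ∈ Algebra.adjoin ℚ {t} ↔ ∃ y, φ y = x := by
    intro x
    rw [Algebra.adjoin_singleton_eq_range_aeval]
    constructor
    · rintro ⟨q, rfl⟩
      exact ⟨AdjoinRoot.mk g q, rfl⟩
    · rintro ⟨y, rfl⟩
      obtain ⟨q, rfl⟩ := AdjoinRoot.mk_surjective y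
      exact ⟨q, rfl⟩
  have hZ : ∀ y, y ∈ Algebra.adjoin ℤ {AdjoinRoot.root g} ↔ ψ y ∈ Algebra.adjoin ℤ {t} := by
    intro y
    have : ψ (AdjoinRoot.root g) = t := hφr
    rw [← this, ← AlgHom.map_adjoin_singleton, Subalgebra.mem_map]
    constructor
    · intro h; exact ⟨y, h, rfl⟩
    · rintro ⟨y', h, e⟩; rwa [← hψinj e]
  constructor
  · intro h
    constructor
    · have : AdjoinRoot.root g ∈ integralClosure ℤ (AdjoinRoot g) := by
        rw [← h]; exact Algebra.self_mem_adjoin_singleton ℤ _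
      have h2 : IsIntegral ℤ (ψ (AdjoinRoot.root g)) := IsIntegral.map ψ this
      exact hφr ▸ h2
    · intro x hx hi
      obtain ⟨y, rfl⟩ := (hrange x).mp hx
      have : y ∈ integralClosure ℤ (AdjoinRoot g) := (isIntegral_algHom_iff ψ hψinj).mp hi
      rw [← h] at this
      exact (hZ y).mp this
  · rintro ⟨hti, h⟩
    apply le_antisymm
    · rw [Algebra.adjoin_le_iff, Set.singleton_subset_iff]
      have : IsIntegral ℤ (ψ (AdjoinRoot.root g)) := by
        have e : ψ (AdjoinRoot.root g) = t := hφr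
        rw [e]; exact hti
      exact (isIntegral_algHom_iff ψ hψinj).mp this
    · intro y hy
      rw [hZ]
      exact h _ ((hrange _).mpr ⟨y, rfl⟩) (IsIntegral.map ψ hy)

end Pool.Agent.Lib.MP_b164a8_nt
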